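import Mathlib
import Pool.Agent.P.MP_b0fa34_co.Count

/-!
Kimberling's shuffle: an entry that survives the rows `M, ..., 2 M - 1` changes sides of the
diagonal in an exponentially complex way.  Rows are indexed from `1`, places in a row from `0`
(as in the frozen statement), so the diagonal entry of row `m` is `R m (m - 1)` and the entries
after the diagonal are `R m j` with `m ≤ j`.
-/

set_option autoImplicit false

namespace Pool.Agent.Results.MP_b0fa34_co.ItineraryEntropy

open Pool.Agent.P.MP_b0fa34_co in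
theorem result (R : ℕ → ℕ → ℕ)
    (h1 : ∀ i, R 1 i = i + 1)
    (h2 : ∀ m t : ℕ, 1 ≤ m → t + 2 ≤ m →
      R (m + 1) (2 * t) = R m (m + t) ∧ R (m + 1) (2 * t + 1) = R m (m - t - 2))
    (h3 : ∀ m j : ℕ, 1 ≤ m → 2 * m - 2 ≤ j → R (m + 1) j = R m (j + 1))
    (n : ℕ) :
    ∃ M₀ : ℕ, ∀ M : ℕ, M₀ ≤ M → ∀ k : ℕ, 1 ≤ k → k < 3 * M →
      (∀ m : ℕ, 1 ≤ m → m < 2 * M → R m (m - 1) ≠ k) →
      2 ^ n ≤ (Set.ncard {w : Fin n → Bool | ∃ m : ℕ, M ≤ m ∧ m + n ≤ 2 * M ∧
        ∀ i : Fin n, (w i = true ↔ ∃ j : ℕ, m + i ≤ j ∧ R (m + i) j = k)}) ^ 2 := by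
  classical
  rcases Nat.eq_zero_or_pos n with rfl | hn
  · refine ⟨0, fun M _ k _ _ _ => ?_⟩
    have : {w : Fin 0 → Bool | ∃ m : ℕ, M ≤ m ∧ m + 0 ≤ 2 * M ∧
        ∀ i : Fin 0, (w i = true ↔ ∃ j : ℕ, m + i ≤ j ∧ R (m + i) j = k)} = Set.univ :=
      Set.eq_univ_of_forall fun w => ⟨M, le_rfl, by omega, fun i => i.elim0⟩
    rw [this, Set.ncard_univ]
    simp
  obtain ⟨M0, hM0⟩ := core n hn
  refine ⟨max M0 1, fun M hM k hk1 hk2 hk3 => ?_⟩
  have hM1 : 1 ≤ M := le_of_max_le_right hM
  -- rows are injective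
  have hrow : ∀ m j, 1 ≤ m → R (m + 1) j = R m
      (if 2 * m - 2 ≤ j then j + 1 else if j % 2 = 0 then m + j / 2 else m - j / 2 - 2) := by
    intro m j hm
    split_ifs with c1 c2
    · exact h3 m j hm c1
    · have := (h2 m (j / 2) hm (by omega)).1
      rwa [show 2 * (j / 2) = j by omega] at this
    · have := (h2 m (j / 2) hm (by omega)).2
      rwa [show 2 * (j / 2) + 1 = j by omega] at this
  have hinj : ∀ m, 1 ≤ m → ∀ i j, R m i = R m j → i = j := by
    intro m hm
    induction m, hm using Nat.le_induction with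
    | base => intro i j h; rw [h1, h1] at h; omega
    | succ m hm ih =>
      intro i j h
      rw [hrow m i hm, hrow m j hm] at h
      have := ih _ _ h
      split_ifs at this <;> omega
  -- the place of `k`
  obtain ⟨pos, pos1, poss⟩ : ∃ pos : ℕ → ℕ, pos 1 = k - 1 ∧ ∀ r, 1 ≤ r →
      pos (r + 1) = if 2 * r - 1 ≤ pos r then pos r - 1
        else if r ≤ pos r then 2 * (pos r - r) else 2 * (r - pos r - 2) + 1 := by
    refine ⟨fun m => Nat.rec (motive := fun _ => ℕ) (k - 1) (fun r p =>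
      if r = 0 then p else if 2 * r - 1 ≤ p then p - 1 else if r ≤ p then 2 * (p - r)
        else 2 * (r - p - 2) + 1) m, by simp, fun r hr => ?_⟩
    exact if_neg (by omega)
  have hpos : ∀ m, 1 ≤ m → m ≤ 2 * M →
      R m (pos m) = k ∧ (pos m + m ≤ k ∨ pos m + 1 ≤ 2 * m) := by
    intro m hm
    induction m, hm using Nat.le_induction with
    | base => intro _; rw [pos1, h1]; omega
    | succ m hm ih =>
      intro hm2
      obtain ⟨i1, i2⟩ := ih (by omega)
      have hne : pos m ≠ m - 1 := fun he => hk3 m hm (by omega) (he ▸ i1)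
      rw [poss m hm]
      split_ifs with c1 c2
      · refine ⟨?_, by omega⟩
        rw [h3 m _ hm (by omega), show pos m - 1 + 1 = pos m by omega, i1]
      · refine ⟨?_, by omega⟩
        rw [(h2 m (pos m - m) hm (by omega)).1, show m + (pos m - m) = pos m by omega, i1]
      · refine ⟨?_, by omega⟩
        rw [(h2 m (m - pos m - 2) hm (by omega)).2,
          show m - (m - pos m - 2) - 2 = pos m by omega, i1]
  have horb : Orb (fun m => 2 * (pos m : ℤ) + 3) (fun m => decide (m ≤ pos m)) M (2 * M) := by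
    refine ⟨fun t a1 a2 => ?_, fun t a1 a2 => by positivity, fun t a1 a2 => ?_⟩
    · obtain ⟨i1, i2⟩ := hpos t (by omega) (by omega)
      have hne : pos t ≠ t - 1 := fun he => hk3 t (by omega) a2 (he ▸ i1)
      rw [poss t (by omega)]
      by_cases c : t ≤ pos t
      · simp only [c, decide_true, sg, if_true]
        split_ifs <;> omega
      · simp only [c, decide_false, sg, if_false, Bool.false_eq_true]
        split_ifs <;> omega
    · obtain ⟨i1, i2⟩ := hpos t (by omega) a2
      omega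
  have key := hM0 M (le_of_max_le_left hM) _ _ horb
  have hset : {w : Fin n → Bool | ∃ m : ℕ, M ≤ m ∧ m + n ≤ 2 * M ∧
        ∀ i : Fin n, (w i = true ↔ ∃ j : ℕ, m + i ≤ j ∧ R (m + i) j = k)} =
      (blocks (fun m => decide (m ≤ pos m)) M (2 * M) n : Set (Fin n → Bool)) := by
    ext w
    simp only [blocks, Finset.coe_filter, Finset.mem_univ, true_and, Set.mem_ofPred_eq]
    refine exists_congr fun m => and_congr_right fun a1 => and_congr_right fun a2 =>
      forall_congr' fun i => ?_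
    have hi := i.2
    obtain ⟨i1, _⟩ := hpos (m + i) (by omega) (by omega)
    have hiff : (∃ j : ℕ, m + i ≤ j ∧ R (m + i) j = k) ↔ m + i ≤ pos (m + i) :=
      ⟨fun ⟨j, j1, j2⟩ => by rwa [hinj (m + i) (by omega) _ _ (i1.trans j2.symm)],
        fun h => ⟨_, h, i1⟩⟩
    rw [hiff]
    cases w i <;> simp
  rw [hset, Set.ncard_coe_finset]
  exact key

end Pool.Agent.Results.MP_b0fa34_co.ItineraryEntropy
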